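import Pool.Agent.H14.NF.Base
import Pool.Agent.H30.T1.S4

/-!
# NF: the pair of matrices of a bad class (statements)
-/

set_option autoImplicit false

namespace Pool.NF

open Polynomial Matrix NumberField IsDedekindDomain Pool.HYP Pool.TOW Pool.AVS Pool.T1

/-- RTB: the roots of a polynomial close to `x³ - Y³`. -/
def RTBStmt : Prop :=
  ∀ (a₁ a₂ a₃ θ : ℂ) (Y : ℝ), 1 ≤ Y → ‖a₁‖ ≤ Y / 100 → ‖a₂‖ ≤ Y ^ 2 / 100 →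
    ‖a₃ + (Y : ℂ) ^ 3‖ ≤ Y ^ 3 / 100 → θ ^ 3 + a₁ * θ ^ 2 + a₂ * θ + a₃ = 0 → ‖θ‖ ≤ 2 * Y

/-- LGR: the Lagrange basis over a field.  For `f = ∏ (x - θ_r)`, `e_r = ∏_(s ≠ r) (x - θ_s)`:
`f ∣ e_r e_s` for `r ≠ s`, `f ∣ e_r (p - p(θ_r))`, `τ(e_r) = 1`. -/
def LGRStmt : Prop :=
  ∀ (L : Type) [Field L] (f h : L[X]) (θ : Fin 3 → L), f = ∏ r, (X - C (θ r)) →
    Function.Injective θ →
    ∃ E : Matrix (Fin 3) (Fin 3) L, (∀ r a, E a r = (∏ s ∈ Finset.univ.erase r,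
        (X - C (θ s))).coeff (a : ℕ)) ∧ ∃ w : Fin 3 → L, (∀ r, w r ≠ 0) ∧
      (∀ r, w r = ∏ s ∈ Finset.univ.erase r, (θ r - θ s)) ∧
      Eᵀ * gr 0 3 f h * E = Matrix.diagonal (fun r => w r * h.eval (θ r)) ∧
      Eᵀ * gr 1 3 f h * E = Matrix.diagonal (fun r => θ r * (w r * h.eval (θ r)))

/-- ARC: orthonormal bases over `ℂ`.  (LGR, multiply the `r`-th column by `s_r` with
`s_r² w_r h(θ_r) = 1`.) -/
def ARCStmt : Prop :=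
  ∀ (f h : ℂ[X]) (M : ℝ), f.Monic → f.natDegree = 3 → f.Separable → IsCoprime h f → 0 ≤ M →
    (∀ θ : ℂ, f.eval θ = 0 → ‖θ‖ ≤ M) →
    ∃ g : Matrix (Fin 3) (Fin 3) ℂ, g.det ≠ 0 ∧ gᵀ * gr 0 3 f h * g = 1 ∧
      ∀ i j, ‖(gᵀ * gr 1 3 f h * g) i j‖ ≤ M

/-- ARR: bases over `ℝ`.  (A real root `a` exists.  If all three roots are real: LGR over `ℝ` and
`s_r² |w_r h(θ_r)| = 1`.  Otherwise the roots are `a`, `z`, `z̄`; LGR over `ℂ`, `s² w_z h(z) = 1`,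
`s e_z = p + i q` with `p`, `q` real: `τ(p² h) = 1/2 = - τ(q² h)`, `τ(p q h) = 0`,
`τ(x p² h) = Re z / 2 = - τ(x q² h)`, `τ(x p q h) = Im z / 2`; the real vectors are
`s_a e_a`, `p`, `q`.) -/
def ARRStmt : Prop :=
  ∀ (f h : ℝ[X]) (M : ℝ), f.Monic → f.natDegree = 3 → f.Separable → IsCoprime h f → 0 ≤ M →
    (∀ θ : ℂ, (f.map Complex.ofRealHom).eval θ = 0 → ‖θ‖ ≤ M) →
    ∃ g : Matrix (Fin 3) (Fin 3) ℝ, g.det ≠ 0 ∧ (∀ i j, |(gᵀ * gr 0 3 f h * g) i j| ≤ 1) ∧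
      4⁻¹ ≤ |(gᵀ * gr 0 3 f h * g).det| ∧ ∀ i j, |(gᵀ * gr 1 3 f h * g) i j| ≤ M

/-- INFN: the archimedean places.  (`σ` real: ARR; otherwise ARC for one of `σ`, `conj σ`, the
embedding of the place, and the conjugate matrix for the other.) -/
def INFNStmt : Prop :=
  ∀ (K : Type) [Field K] [NumberField K] (f : (𝓞 K)[X]) (Y : ℕ) (α : K[X]), 1 ≤ Y → f.Monic →
    f.natDegree = 3 → NearN Y f → Irreducible (fk K f) → IsCoprime α (fk K f) →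
    ∃ g : (K →+* ℂ) → Matrix (Fin 3) (Fin 3) ℂ,
      (∀ σ, g (ComplexEmbedding.conjugate σ) = (g σ).map (starRingEnd ℂ)) ∧
      ∀ σ, (g σ).det ≠ 0 ∧
        (∀ i j, ‖((g σ)ᵀ * (gr 0 3 (fk K f) α).map σ * g σ) i j‖ ≤ 1) ∧
        4⁻¹ ≤ ‖((g σ)ᵀ * (gr 0 3 (fk K f) α).map σ * g σ).det‖ ∧
        ∀ i j, ‖((g σ)ᵀ * (gr 1 3 (fk K f) α).map σ * g σ) i j‖ ≤ 2 * Y

/-- EBN: entries after a change of basis, and the determinant. -/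
def EBNStmt : Prop :=
  ∀ (K : Type) [Field K] [NumberField K] (A E : Matrix (Fin 3) (Fin 3) K)
    (G : Matrix (Fin 3) (Fin 3) (𝓞 K)) (g : (K →+* ℂ) → Matrix (Fin 3) (Fin 3) ℂ)
    (d : Fin 3 → ℝ) (e : Fin 3 → ℤ) (M : ℝ), 0 ≤ M → (∀ i, d i ≤ e i) →
    Eᵀ * A * E = G.map (algebraMap (𝓞 K) K) → (∀ σ, (g σ).det ≠ 0) →
    (∀ σ i j, ‖((g σ)ᵀ * A.map σ * g σ) i j‖ ≤ M) →
    (∀ σ i j, ‖((g σ)⁻¹ * E.map σ) i j‖ ≤ Real.exp (d j)) →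
    (∀ i j, G i j ∈ Bx K (9 * M * Real.exp ((e i + e j : ℤ) : ℝ))) ∧
      G.det ∈ Bx K (6 * (9 * M) ^ 3 * Real.exp ((2 * ∑ i, e i : ℤ) : ℝ))

/-- KEYN (compare `Pool.T1.keyk` in H96/T1/KEYK.lean): LATTK, INFN, MKN with `B = 4`,
`e i = ⌈d i⌉`, EBN, `chp` and `dist` of HYP; for `P ∈ T` the determinant is not in `P` by NRM. -/
def KEYNStmt : Prop :=
  ∀ (K : Type) [Field K] [NumberField K],
    (∀ (D : DatN K) (Y : ℕ), D.Ok → ∀ f ∈ FamN D Y, Irreducible (fk K f)) →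
    ∃ B : ℝ, ∀ B' : ℝ, B ≤ B' → KeyN K B'

end Pool.NF
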