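import Pool.Agent.H33.NF.LGR

/-!
# NF, row ARR: bases over `ℝ`
-/

set_option autoImplicit false

namespace Pool.NF

open Polynomial Matrix Pool.HYP

namespace H33R

open H33L

theorem tau_mapR {K L : Type} [Field K] [Field L] (ι : K →+* L) {f : K[X]} (hf : f.Monic)
    (p : K[X]) : tau (f.map ι) (p.map ι) = ι (tau f p) := by
  unfold tau
  rw [← map_modByMonic ι hf, coeff_map, hf.natDegree_map ι]

theorem gr_mapR {K L : Type} [Field K] [Field L] (ι : K →+* L) (k n : ℕ) {f : K[X]}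
    (hf : f.Monic) (h : K[X]) : gr k n (f.map ι) (h.map ι) = (gr k n f h).map ι := by
  ext i j
  simp only [gr, Matrix.of_apply, Matrix.map_apply]
  rw [← tau_mapR ι hf]
  simp only [Polynomial.map_mul, Polynomial.map_pow, map_X]

/-- The conclusion from the complex matrices. -/
theorem fin_of {f h : ℝ[X]} {M : ℝ} (g : Matrix (Fin 3) (Fin 3) ℝ)
    (h0 : ∀ i j, |(gᵀ * gr 0 3 f h * g) i j| ≤ 1) (h1 : 4⁻¹ ≤ |(gᵀ * gr 0 3 f h * g).det|)
    (h2 : ∀ i j, |(gᵀ * gr 1 3 f h * g) i j| ≤ M) :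
    ∃ g : Matrix (Fin 3) (Fin 3) ℝ, g.det ≠ 0 ∧ (∀ i j, |(gᵀ * gr 0 3 f h * g) i j| ≤ 1) ∧
      4⁻¹ ≤ |(gᵀ * gr 0 3 f h * g).det| ∧ ∀ i j, |(gᵀ * gr 1 3 f h * g) i j| ≤ M := by
  refine ⟨g, fun h3 => ?_, h0, h1, h2⟩
  rw [Matrix.det_mul, h3, mul_zero, abs_zero] at h1
  norm_num at h1

/-- All roots real. -/
theorem case_real (hL : LGRStmt) (f h : ℝ[X]) (M : ℝ) (t : Fin 3 → ℝ)
    (hc : IsCoprime h f) (hM : 0 ≤ M) (ht : f = ∏ r, (X - C (t r)))
    (hinj : Function.Injective t) (hb : ∀ r, |t r| ≤ M) :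
    ∃ g : Matrix (Fin 3) (Fin 3) ℝ, g.det ≠ 0 ∧ (∀ i j, |(gᵀ * gr 0 3 f h * g) i j| ≤ 1) ∧
      4⁻¹ ≤ |(gᵀ * gr 0 3 f h * g).det| ∧ ∀ i j, |(gᵀ * gr 1 3 f h * g) i j| ≤ M := by
  obtain ⟨E, -, w, hw, -, h0, h1⟩ := hL ℝ f h t ht hinj
  have hev : ∀ r, h.eval (t r) ≠ 0 := fun r => eval_ne hc (eval_root ht r)
  obtain ⟨s, hs⟩ : ∃ s : Fin 3 → ℝ, ∀ r, s r ^ 2 = |w r * h.eval (t r)|⁻¹ :=
    ⟨fun r => Real.sqrt |w r * h.eval (t r)|⁻¹, fun r => Real.sq_sqrt (by positivity)⟩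
  have hG := diag_sand E _ s _ h0
  have hS := diag_sand E _ s _ h1
  have hone : ∀ r, |s r ^ 2 * (w r * h.eval (t r))| = 1 := fun r => by
    rw [hs, abs_mul, abs_inv, abs_abs]
    exact inv_mul_cancel₀ (abs_ne_zero.2 (mul_ne_zero (hw r) (hev r)))
  refine fin_of (E * Matrix.diagonal s) (fun i j => ?_) ?_ fun i j => ?_
  · rw [hG]
    by_cases hij : i = j
    · subst hij
      rw [Matrix.diagonal_apply_eq, hone]
    · rw [Matrix.diagonal_apply_ne _ hij, abs_zero]
      norm_num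
  · rw [hG, Matrix.det_diagonal, Finset.abs_prod]
    simp only [hone]
    norm_num
  · rw [hS]
    by_cases hij : i = j
    · subst hij
      rw [Matrix.diagonal_apply_eq]
      have h3 : s i ^ 2 * (t i * (w i * h.eval (t i))) =
          t i * (s i ^ 2 * (w i * h.eval (t i))) := by ring
      rw [h3, abs_mul, hone, mul_one]
      exact hb i
    · rw [Matrix.diagonal_apply_ne _ hij, abs_zero]
      exact hM

/-- The change of basis from `c`, `conj c` to the real and the imaginary part of `c`. -/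
noncomputable def UU3 : Matrix (Fin 3) (Fin 3) ℂ :=
  !![1, 0, 0; 0, 2⁻¹, -(Complex.I / 2); 0, 2⁻¹, Complex.I / 2]

theorem UU3_sand (a b c : ℂ) :
    UU3ᵀ * Matrix.diagonal ![a, b, c] * UU3 =
      !![a, 0, 0; 0, (b + c) / 4, Complex.I * (c - b) / 4;
        0, Complex.I * (c - b) / 4, -((b + c) / 4)] := by
  have hI : Complex.I * Complex.I = -1 := Complex.I_mul_I
  have hI2 : Complex.I ^ 2 = -1 := Complex.I_sq
  ext i j
  fin_cases i <;> fin_cases j <;>
    simp [UU3, Matrix.mul_apply, Fin.sum_univ_three, Matrix.diagonal] <;> ring_nf <;>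
    simp [hI2] <;> ring

/-- One real root. -/
theorem case_cplx (hL : LGRStmt) (f h : ℝ[X]) (M : ℝ) (a : ℝ) (z : ℂ) (hf : f.Monic)
    (hz : z.im ≠ 0) (hc : IsCoprime h f) (hM : 0 ≤ M)
    (hfz : f.map Complex.ofRealHom = ∏ r, (X - C (![(a : ℂ), z, starRingEnd ℂ z] r)))
    (ha : |a| ≤ M) (hzM : ‖z‖ ≤ M) :
    ∃ g : Matrix (Fin 3) (Fin 3) ℝ, g.det ≠ 0 ∧ (∀ i j, |(gᵀ * gr 0 3 f h * g) i j| ≤ 1) ∧
      4⁻¹ ≤ |(gᵀ * gr 0 3 f h * g).det| ∧ ∀ i j, |(gᵀ * gr 1 3 f h * g) i j| ≤ M := by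
  obtain ⟨θ, hθ⟩ : ∃ θ : Fin 3 → ℂ, θ = ![(a : ℂ), z, starRingEnd ℂ z] := ⟨_, rfl⟩
  have hθ0 : θ 0 = (a : ℂ) := by rw [hθ]; rfl
  have hθ1 : θ 1 = z := by rw [hθ]; rfl
  have hθ2 : θ 2 = starRingEnd ℂ z := by rw [hθ]; rfl
  have hza : z ≠ (a : ℂ) := fun h1 => hz (by rw [h1]; exact Complex.ofReal_im a)
  have hzc : starRingEnd ℂ z ≠ (a : ℂ) := fun h1 => by
    apply hz
    have h2 := congrArg Complex.im h1
    rw [Complex.conj_im, Complex.ofReal_im] at h2
    linarith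
  have hzz : starRingEnd ℂ z ≠ z := fun h1 => hz (Complex.conj_eq_iff_im.1 h1)
  have h01 : θ 0 ≠ θ 1 := by rw [hθ0, hθ1]; exact fun h => hza h.symm
  have h02 : θ 0 ≠ θ 2 := by rw [hθ0, hθ2]; exact fun h => hzc h.symm
  have h12 : θ 1 ≠ θ 2 := by rw [hθ1, hθ2]; exact fun h => hzz h.symm
  have hinj : Function.Injective θ := by
    intro i j hij
    fin_cases i <;> fin_cases j
    · rfl
    · exact absurd hij h01
    · exact absurd hij h02
    · exact absurd hij.symm h01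
    · rfl
    · exact absurd hij h12
    · exact absurd hij.symm h02
    · exact absurd hij.symm h12
    · rfl
  rw [← hθ] at hfz
  obtain ⟨E, hE, w, hw, hww, h0, h1⟩ := hL ℂ (f.map Complex.ofRealHom) (h.map Complex.ofRealHom)
    θ hfz hinj
  have hcc : IsCoprime (h.map Complex.ofRealHom) (f.map Complex.ofRealHom) :=
    hc.map (Polynomial.mapRingHom Complex.ofRealHom)
  have hev : ∀ r, (h.map Complex.ofRealHom).eval (θ r) ≠ 0 := fun r =>
    eval_ne hcc (eval_root hfz r)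
  -- conjugation of the values
  have hevc : ∀ t : ℂ, starRingEnd ℂ ((h.map Complex.ofRealHom).eval t) =
      (h.map Complex.ofRealHom).eval (starRingEnd ℂ t) := fun t => by
    have h2 : (h.map Complex.ofRealHom).map (starRingEnd ℂ) = h.map Complex.ofRealHom := by
      rw [Polynomial.map_map]
      congr 1
      ext x
      exact Complex.conj_ofReal x
    have h3 := Polynomial.eval₂_hom (p := h.map Complex.ofRealHom) (starRingEnd ℂ) t
    rw [← Polynomial.eval_map, h2] at h3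
    exact h3.symm
  have her0 : (Finset.univ.erase (0 : Fin 3)) = {1, 2} := by decide
  have her1 : (Finset.univ.erase (1 : Fin 3)) = {0, 2} := by decide
  have her2 : (Finset.univ.erase (2 : Fin 3)) = {0, 1} := by decide
  have hw0 : w 0 = ((Complex.normSq ((a : ℂ) - z) : ℝ) : ℂ) := by
    have h3 : (a : ℂ) - starRingEnd ℂ z = starRingEnd ℂ ((a : ℂ) - z) := by
      rw [map_sub, Complex.conj_ofReal]
    rw [hww, her0, Finset.prod_pair (by decide), hθ0, hθ1, hθ2, h3, Complex.mul_conj]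
  have hw12 : starRingEnd ℂ (w 1) = w 2 := by
    rw [hww, hww, her1, her2, Finset.prod_pair (by decide), Finset.prod_pair (by decide), hθ0,
      hθ1, hθ2, map_mul, map_sub, map_sub, Complex.conj_ofReal, Complex.conj_conj]
  -- conjugation of `E`
  have hcoef : ∀ (p : ℂ[X]) (n : ℕ), starRingEnd ℂ (p.coeff n) =
      (p.map (starRingEnd ℂ)).coeff n := fun p n => by rw [coeff_map]
  have hE0 : ∀ i, starRingEnd ℂ (E i 0) = E i 0 := fun i => by
    rw [hE, hcoef, her0, Finset.prod_pair (by decide), hθ1, hθ2]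
    simp only [Polynomial.map_mul, Polynomial.map_sub, map_X, map_C, Complex.conj_conj]
    rw [mul_comm]
  have hE12 : ∀ i, starRingEnd ℂ (E i 1) = E i 2 := fun i => by
    rw [hE, hE, hcoef, her1, her2, Finset.prod_pair (by decide), Finset.prod_pair (by decide),
      hθ0, hθ1, hθ2]
    simp only [Polynomial.map_mul, Polynomial.map_sub, map_X, map_C, Complex.conj_conj,
      Complex.conj_ofReal]
  -- scaling
  obtain ⟨x0, hx0⟩ : ∃ x0 : ℝ, w 0 * (h.map Complex.ofRealHom).eval (θ 0) = (x0 : ℂ) := by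
    refine ⟨Complex.normSq ((a : ℂ) - z) * h.eval a, ?_⟩
    rw [hw0, hθ0]
    have h2 : (h.map Complex.ofRealHom).eval (a : ℂ) = ((h.eval a : ℝ) : ℂ) := by
      have h3 := Polynomial.eval₂_hom (p := h) Complex.ofRealHom a
      rw [← Polynomial.eval_map] at h3
      exact h3
    rw [h2, ← Complex.ofReal_mul]
  have hx0n : x0 ≠ 0 := fun h2 => by
    rw [h2, Complex.ofReal_zero] at hx0
    exact mul_ne_zero (hw 0) (hev 0) hx0
  obtain ⟨s0, hs0⟩ : ∃ s0 : ℝ, s0 ^ 2 = |x0|⁻¹ :=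
    ⟨Real.sqrt |x0|⁻¹, Real.sq_sqrt (by positivity)⟩
  obtain ⟨s, hs⟩ : ∃ s : ℂ, s ^ 2 = (w 1 * (h.map Complex.ofRealHom).eval (θ 1))⁻¹ :=
    IsAlgClosed.exists_pow_nat_eq _ (by norm_num)
  have hs1 : s ^ 2 * (w 1 * (h.map Complex.ofRealHom).eval (θ 1)) = 1 := by
    rw [hs]
    exact inv_mul_cancel₀ (mul_ne_zero (hw 1) (hev 1))
  have hs2 : (starRingEnd ℂ s) ^ 2 * (w 2 * (h.map Complex.ofRealHom).eval (θ 2)) = 1 := by
    have h2 := congrArg (starRingEnd ℂ) hs1
    rw [map_mul, map_mul, map_pow, map_one, hw12, hevc, hθ1, ← hθ2] at h2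
    exact h2
  have hε : |s0 ^ 2 * x0| = 1 := by
    rw [hs0, abs_mul, abs_inv, abs_abs]
    exact inv_mul_cancel₀ (abs_ne_zero.2 hx0n)
  obtain ⟨ε, hεd⟩ : ∃ ε : ℝ, ε = s0 ^ 2 * x0 := ⟨_, rfl⟩
  rw [← hεd] at hε
  -- the matrices
  obtain ⟨G0, hG0⟩ : ∃ G0 : Matrix (Fin 3) (Fin 3) ℂ,
    G0 = E * Matrix.diagonal ![(s0 : ℂ), s, starRingEnd ℂ s] := ⟨_, rfl⟩
  have hd0 : G0ᵀ * gr 0 3 (f.map Complex.ofRealHom) (h.map Complex.ofRealHom) * G0 =
      Matrix.diagonal ![(ε : ℂ), 1, 1] := by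
    rw [hG0, diag_sand E _ _ _ h0]
    congr 1
    funext r
    fin_cases r
    · show (s0 : ℂ) ^ 2 * (w 0 * (h.map Complex.ofRealHom).eval (θ 0)) = (ε : ℂ)
      rw [hx0, hεd]
      push_cast
      ring
    · exact hs1
    · exact hs2
  have hd1 : G0ᵀ * gr 1 3 (f.map Complex.ofRealHom) (h.map Complex.ofRealHom) * G0 =
      Matrix.diagonal ![(a * ε : ℂ), z, starRingEnd ℂ z] := by
    rw [hG0, diag_sand E _ _ _ h1]
    congr 1
    funext r
    fin_cases r
    · show (s0 : ℂ) ^ 2 * (θ 0 * (w 0 * (h.map Complex.ofRealHom).eval (θ 0))) = (a * ε : ℂ)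
      rw [hx0, hεd, hθ0]
      push_cast
      ring
    · show s ^ 2 * (θ 1 * (w 1 * (h.map Complex.ofRealHom).eval (θ 1))) = z
      rw [mul_left_comm, hs1, hθ1, mul_one]
    · show (starRingEnd ℂ s) ^ 2 * (θ 2 * (w 2 * (h.map Complex.ofRealHom).eval (θ 2))) =
        starRingEnd ℂ z
      rw [mul_left_comm, hs2, hθ2, mul_one]
  obtain ⟨g, hg⟩ : ∃ g : Matrix (Fin 3) (Fin 3) ℝ, g = Matrix.of fun i j => ((G0 * UU3) i j).re :=
    ⟨_, rfl⟩
  have hgc : g.map Complex.ofRealHom = G0 * UU3 := by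
    refine Matrix.ext fun i j => ?_
    rw [Matrix.map_apply, hg, Matrix.of_apply]
    show (((G0 * UU3) i j).re : ℂ) = (G0 * UU3) i j
    refine Complex.conj_eq_iff_re.1 ?_
    have e0 := hE0 i
    have e1 := hE12 i
    have e2 : starRingEnd ℂ (E i 2) = E i 1 := by rw [← e1, Complex.conj_conj]
    have e3 : starRingEnd ℂ (2 : ℂ) = 2 := map_ofNat _ 2
    rw [hG0]
    fin_cases j <;>
      simp [UU3, Matrix.mul_apply, Fin.sum_univ_three, Matrix.diagonal, e0, e1, e2, e3] <;> ring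
  have hsand : ∀ k, ((gᵀ * gr k 3 f h * g).map Complex.ofRealHom) =
      UU3ᵀ * (G0ᵀ * gr k 3 (f.map Complex.ofRealHom) (h.map Complex.ofRealHom) * G0) * UU3 :=
    fun k => by
    rw [Matrix.map_mul, Matrix.map_mul, Matrix.transpose_map, hgc, gr_mapR _ _ _ hf,
      Matrix.transpose_mul]
    simp only [Matrix.mul_assoc]
  have hk0 := hsand 0
  have hk1 := hsand 1
  rw [hd0, UU3_sand] at hk0
  rw [hd1, UU3_sand] at hk1
  have hnorm : ∀ (A : Matrix (Fin 3) (Fin 3) ℝ) (i j : Fin 3),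
      |A i j| = ‖(A.map Complex.ofRealHom) i j‖ := fun A i j => by
    rw [Matrix.map_apply]
    show |A i j| = ‖((A i j : ℝ) : ℂ)‖
    rw [Complex.norm_real, Real.norm_eq_abs]
  have hre : |z.re| ≤ M := (Complex.abs_re_le_norm z).trans hzM
  have him : |z.im| ≤ M := (Complex.abs_im_le_norm z).trans hzM
  refine fin_of g (fun i j => ?_) ?_ fun i j => ?_
  · rw [hnorm, hk0]
    fin_cases i <;> fin_cases j <;> simp [hε] <;> norm_num
  · have h2 : ((gᵀ * gr 0 3 f h * g).det : ℂ) = -((ε : ℂ) / 4) := by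
      have h3 : Complex.ofRealHom ((gᵀ * gr 0 3 f h * g).det) =
        ((gᵀ * gr 0 3 f h * g).map Complex.ofRealHom).det := RingHom.map_det _ _
      have h4 : ((gᵀ * gr 0 3 f h * g).det : ℂ) = Complex.ofRealHom ((gᵀ * gr 0 3 f h * g).det) :=
        rfl
      rw [h4, h3, hk0, Matrix.det_fin_three]
      simp
      ring
    have h5 : |(gᵀ * gr 0 3 f h * g).det| = ‖((gᵀ * gr 0 3 f h * g).det : ℂ)‖ := by
      rw [Complex.norm_real, Real.norm_eq_abs]
    rw [h5, h2, norm_neg, norm_div, Complex.norm_real, Real.norm_eq_abs, hε]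
    norm_num
  · rw [hnorm, hk1]
    have e1 : z + starRingEnd ℂ z = ((2 * z.re : ℝ) : ℂ) := by
      apply Complex.ext <;> simp <;> ring
    have e2 : Complex.I * (starRingEnd ℂ z - z) = ((2 * z.im : ℝ) : ℂ) := by
      apply Complex.ext <;> simp <;> ring
    rw [e1, e2]
    have n1 : ‖(((2 * z.re : ℝ) : ℂ)) / 4‖ ≤ M := by
      rw [norm_div, Complex.norm_real, Real.norm_eq_abs, abs_mul]
      norm_num
      have := abs_nonneg z.re
      linarith
    have n2 : ‖(((2 * z.im : ℝ) : ℂ)) / 4‖ ≤ M := by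
      rw [norm_div, Complex.norm_real, Real.norm_eq_abs, abs_mul]
      norm_num
      have := abs_nonneg z.im
      linarith
    have n3 : ‖(a * ε : ℂ)‖ ≤ M := by
      rw [norm_mul, Complex.norm_real, Complex.norm_real, Real.norm_eq_abs, Real.norm_eq_abs, hε,
        mul_one]
      exact ha
    have n0 : ‖(0 : ℂ)‖ ≤ M := by rw [norm_zero]; exact hM
    have n4 : ‖-((((2 * z.re : ℝ) : ℂ)) / 4)‖ ≤ M := by rw [norm_neg]; exact n1
    fin_cases i <;> fin_cases j
    · exact n3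
    · exact n0
    · exact n0
    · exact n0
    · exact n1
    · exact n2
    · exact n0
    · exact n2
    · exact n4

end H33R

open H33L H33R

/-- **ARR.** -/
theorem arr (hL : LGRStmt) : ARRStmt := by
  intro f h M hf hd hs hc hM hroot
  have hfc : (f.map Complex.ofRealHom).Monic := hf.map _
  have hdc : (f.map Complex.ofRealHom).natDegree = 3 := by rw [hf.natDegree_map, hd]
  have hsc : (f.map Complex.ofRealHom).Separable := hs.map
  have hinjm : Function.Injective (Polynomial.map Complex.ofRealHom) :=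
    Polynomial.map_injective _ Complex.ofRealHom.injective
  by_cases hall : ∀ t : ℂ, (f.map Complex.ofRealHom).eval t = 0 → t.im = 0
  · obtain ⟨θ, hθ, hinj⟩ := roots3 _ hfc hdc hsc
    have hre : ∀ r, ((θ r).re : ℂ) = θ r := fun r =>
      Complex.ext rfl (by rw [Complex.ofReal_im, hall _ (eval_root hθ r)])
    refine case_real hL f h M (fun r => (θ r).re) hc hM (hinjm ?_) (fun i j hij => hinj ?_)
      fun r => ?_
    · rw [hθ, Polynomial.map_prod]
      refine Finset.prod_congr rfl fun r _ => ?_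
      rw [Polynomial.map_sub, map_X, map_C]
      show X - C (θ r) = X - C ((θ r).re : ℂ)
      rw [hre]
    · rw [← hre i, ← hre j]
      exact congrArg _ hij
    · have h1 := hroot _ (eval_root hθ r)
      rw [← hre r, Complex.norm_real, Real.norm_eq_abs] at h1
      exact h1
  · push Not at hall
    obtain ⟨z, hz0, hz⟩ := hall
    have hzz : aeval z f = 0 := by
      rw [aeval_def, ← eval_map]
      exact hz0
    obtain ⟨p, hp⟩ := quadratic_dvd_of_aeval_eq_zero_im_ne_zero f hzz hz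
    have hq : (X ^ 2 - C (2 * z.re) * X + C (‖z‖ ^ 2) : ℝ[X]).Monic := by
      have : (X ^ 2 - C (2 * z.re) * X + C (‖z‖ ^ 2) : ℝ[X]) =
        X ^ 2 + (C (-(2 * z.re)) * X + C (‖z‖ ^ 2)) := by
        rw [C_neg]; ring
      rw [this]
      refine monic_X_pow_add ?_
      refine lt_of_le_of_lt degree_linear_le ?_
      norm_num
    have hqd : (X ^ 2 - C (2 * z.re) * X + C (‖z‖ ^ 2) : ℝ[X]).natDegree = 2 := by
      compute_degree!
    have hpm : p.Monic := by
      have h1 := hf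
      rw [hp] at h1
      exact hq.of_mul_monic_left h1
    have hpd : p.natDegree = 1 := by
      have h1 := hq.natDegree_mul hpm
      rw [← hp, hd, hqd] at h1
      omega
    obtain ⟨a, ha⟩ : ∃ a : ℝ, p = X - C a := by
      refine ⟨-p.coeff 0, ?_⟩
      have h1 := hpm.eq_X_add_C hpd
      rw [C_neg, sub_neg_eq_add]
      exact h1
    have hqc : (X ^ 2 - C (2 * z.re) * X + C (‖z‖ ^ 2) : ℝ[X]).map Complex.ofRealHom =
        (X - C z) * (X - C (starRingEnd ℂ z)) := by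
      rw [Polynomial.map_add, Polynomial.map_sub, Polynomial.map_mul, Polynomial.map_pow, map_X,
        map_C, map_C]
      have e1 : Complex.ofRealHom (2 * z.re) = z + starRingEnd ℂ z := by
        apply Complex.ext <;> simp <;> ring
      have e2 : Complex.ofRealHom (‖z‖ ^ 2) = z * starRingEnd ℂ z := by
        rw [Complex.mul_conj]
        show ((‖z‖ ^ 2 : ℝ) : ℂ) = _
        rw [Complex.normSq_eq_norm_sq]
      rw [e1, e2, C_add, C_mul]
      ring
    have hfz : f.map Complex.ofRealHom =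
        ∏ r, (X - C (![(a : ℂ), z, starRingEnd ℂ z] r)) := by
      rw [hp, Polynomial.map_mul, hqc, ha, Polynomial.map_sub, map_X, map_C, Fin.prod_univ_three]
      show (X - C z) * (X - C (starRingEnd ℂ z)) * (X - C (a : ℂ)) =
        (X - C (a : ℂ)) * (X - C z) * (X - C (starRingEnd ℂ z))
      ring
    refine case_cplx hL f h M a z hf hz hc hM hfz ?_ (hroot z hz0)
    have h1 := hroot (a : ℂ) (by
      rw [hfz, eval_prod]
      exact Finset.prod_eq_zero (Finset.mem_univ 0) (by simp))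
    rw [Complex.norm_real, Real.norm_eq_abs] at h1
    exact h1

end Pool.NF
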