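import Pool.Agent.H33.NF.K
import Pool.Agent.H2.HYP.KEY
import Pool.Agent.H94.HYP.GDT

/-!
# NF, rows LGR and ARC: the Lagrange basis, orthonormal bases over `ℂ`
-/

set_option autoImplicit false

namespace Pool.NF

open Polynomial Matrix Pool.HYP

namespace H33L

section Lag

variable {L : Type} [Field L]

/-- The product of the `x - θ_s`, `s ≠ r`. -/
noncomputable def lgp (θ : Fin 3 → L) (r : Fin 3) : L[X] :=
  ∏ s ∈ Finset.univ.erase r, (X - C (θ s))

theorem lgp_monic (θ : Fin 3 → L) (r : Fin 3) : (lgp θ r).Monic :=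
  monic_prod_of_monic _ _ fun s _ => monic_X_sub_C (θ s)

theorem lgp_deg (θ : Fin 3 → L) (r : Fin 3) : (lgp θ r).natDegree = 2 := by
  rw [lgp, natDegree_prod_of_monic _ _ fun s _ => monic_X_sub_C (θ s)]
  simp [Finset.card_erase_of_mem]

theorem lgp_mul (θ : Fin 3 → L) (r : Fin 3) : (X - C (θ r)) * lgp θ r = ∏ r, (X - C (θ r)) :=
  Finset.mul_prod_erase Finset.univ (fun s => X - C (θ s)) (Finset.mem_univ r)

theorem lgp_dvd (θ : Fin 3 → L) {r s : Fin 3} (h : r ≠ s) : (X - C (θ r)) ∣ lgp θ s :=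
  Finset.dvd_prod_of_mem (fun s => X - C (θ s)) (Finset.mem_erase.2 ⟨h, Finset.mem_univ r⟩)

theorem lgp_sum (θ : Fin 3 → L) (r : Fin 3) :
    ∑ a : Fin 3, C ((lgp θ r).coeff (a : ℕ)) * X ^ (a : ℕ) = lgp θ r := by
  have h1 : (lgp θ r).natDegree < 3 := by rw [lgp_deg]; norm_num
  rw [Fin.sum_univ_eq_sum_range (fun a => C ((lgp θ r).coeff a) * X ^ a) 3]
  exact ((lgp θ r).as_sum_range_C_mul_X_pow' h1).symm

theorem monic_f (θ : Fin 3 → L) : (∏ r, (X - C (θ r))).Monic :=
  monic_prod_of_monic _ _ fun s _ => monic_X_sub_C (θ s)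

theorem deg_f (θ : Fin 3 → L) : (∏ r, (X - C (θ r))).natDegree = 3 := by
  rw [natDegree_prod_of_monic _ _ fun s _ => monic_X_sub_C (θ s)]
  simp

theorem tau_lgp (θ : Fin 3 → L) (r : Fin 3) : tau (∏ r, (X - C (θ r))) (lgp θ r) = 1 := by
  rw [tau_of_lt (monic_f θ) (by rw [lgp_deg, deg_f]; norm_num), deg_f]
  have h := (lgp_monic θ r).coeff_natDegree
  rw [lgp_deg] at h
  exact h

theorem tau_lgp_mul (θ : Fin 3 → L) (r : Fin 3) (P : L[X]) :
    tau (∏ r, (X - C (θ r))) (lgp θ r * P) = P.eval (θ r) := by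
  have h1 : (∏ r, (X - C (θ r))) ∣ lgp θ r * P - C (P.eval (θ r)) * lgp θ r := by
    have h2 : (X - C (θ r)) ∣ P - C (P.eval (θ r)) := X_sub_C_dvd_sub_C_eval
    rw [← lgp_mul θ r]
    obtain ⟨q, hq⟩ := h2
    refine ⟨q, ?_⟩
    have h3 : lgp θ r * P - C (P.eval (θ r)) * lgp θ r = lgp θ r * (P - C (P.eval (θ r))) := by ring
    rw [h3, hq]
    ring
  rw [tau_congr (monic_f θ) h1, tau_C_mul, tau_lgp, mul_one]

theorem tau_lgp_ne (θ : Fin 3 → L) {r s : Fin 3} (h : r ≠ s) (P : L[X]) :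
    tau (∏ r, (X - C (θ r))) (lgp θ r * lgp θ s * P) = 0 := by
  have h1 : (∏ r, (X - C (θ r))) ∣ lgp θ r * lgp θ s * P - 0 := by
    obtain ⟨q, hq⟩ := lgp_dvd θ h
    refine ⟨q * P, ?_⟩
    rw [← lgp_mul θ r, hq]
    ring
  rw [tau_congr (monic_f θ) h1, tau_zero]

end Lag

end H33L

open H33L

/-- **LGR.** -/
theorem lgr : LGRStmt := by
  intro L _ f h θ hf hθ
  refine ⟨Matrix.of fun a r => (lgp θ r).coeff (a : ℕ), fun r a => rfl,
    fun r => ∏ s ∈ Finset.univ.erase r, (θ r - θ s), fun r => ?_, fun r => rfl, ?_, ?_⟩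
  · refine Finset.prod_ne_zero_iff.2 fun s hs => sub_ne_zero.2 fun h1 => ?_
    exact (Finset.mem_erase.1 hs).1 (hθ h1).symm
  · refine Matrix.ext fun i j => ?_
    have h1 := H2.gr_comb (n := 3) (k := 0) f h
      (Matrix.of fun (a : Fin 3) r => (lgp θ r).coeff (a : ℕ)) i j
    rw [← h1]
    simp only [Matrix.of_apply]
    rw [lgp_sum, lgp_sum, pow_zero, one_mul, hf]
    by_cases hij : i = j
    · subst hij
      rw [Matrix.diagonal_apply_eq, mul_assoc, tau_lgp_mul, eval_mul]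
      congr 1
      rw [lgp, eval_prod]
      simp
    · rw [Matrix.diagonal_apply_ne _ hij, tau_lgp_ne θ hij]
  · refine Matrix.ext fun i j => ?_
    have h1 := H2.gr_comb (n := 3) (k := 1) f h
      (Matrix.of fun (a : Fin 3) r => (lgp θ r).coeff (a : ℕ)) i j
    rw [← h1]
    simp only [Matrix.of_apply]
    rw [lgp_sum, lgp_sum, pow_one, hf]
    by_cases hij : i = j
    · subst hij
      have h2 : X * (lgp θ i * lgp θ i * h) = lgp θ i * (X * (lgp θ i * h)) := by ring
      rw [Matrix.diagonal_apply_eq, h2, tau_lgp_mul, eval_mul, eval_mul, eval_X]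
      congr 2
      rw [lgp, eval_prod]
      simp
    · have h2 : X * (lgp θ i * lgp θ j * h) = lgp θ i * lgp θ j * (X * h) := by ring
      rw [Matrix.diagonal_apply_ne _ hij, h2, tau_lgp_ne θ hij]

namespace H33L

theorem diag_sand {L : Type} [Field L] (E A : Matrix (Fin 3) (Fin 3) L) (s d : Fin 3 → L)
    (h : Eᵀ * A * E = Matrix.diagonal d) :
    (E * Matrix.diagonal s)ᵀ * A * (E * Matrix.diagonal s) =
      Matrix.diagonal fun r => s r ^ 2 * d r := by
  have h1 : (E * Matrix.diagonal s)ᵀ * A * (E * Matrix.diagonal s) =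
      Matrix.diagonal s * (Eᵀ * A * E) * Matrix.diagonal s := by
    rw [Matrix.transpose_mul, Matrix.diagonal_transpose]
    simp only [Matrix.mul_assoc]
  rw [h1, h, Matrix.diagonal_mul_diagonal, Matrix.diagonal_mul_diagonal]
  congr 1
  funext r
  ring

theorem roots3 (f : ℂ[X]) (hf : f.Monic) (hd : f.natDegree = 3) (hs : f.Separable) :
    ∃ θ : Fin 3 → ℂ, f = ∏ r, (X - C (θ r)) ∧ Function.Injective θ := by
  have hsp : f.Splits := IsAlgClosed.splits f
  have hcard : f.roots.card = 3 := by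
    rw [← hd]
    exact hsp.natDegree_eq_card_roots.symm
  obtain ⟨x, y, z, hxyz⟩ := Multiset.card_eq_three.1 hcard
  have hnd : f.roots.Nodup := nodup_roots hs
  have hprod := hsp.eq_prod_roots
  rw [hxyz] at hnd hprod
  rw [hf.leadingCoeff, C_1, one_mul] at hprod
  refine ⟨![x, y, z], ?_, ?_⟩
  · rw [Fin.prod_univ_three, hprod]
    simp [mul_assoc]
  · simp only [Multiset.insert_eq_cons, Multiset.nodup_cons, Multiset.mem_cons,
      Multiset.mem_singleton, not_or, Multiset.nodup_singleton, and_true] at hnd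
    obtain ⟨⟨h1, h2⟩, h3⟩ := hnd
    intro i j hij
    fin_cases i <;> fin_cases j <;> simp_all

theorem eval_ne {L : Type} [Field L] {f h : L[X]} (hc : IsCoprime h f) {t : L}
    (ht : f.eval t = 0) : h.eval t ≠ 0 := by
  obtain ⟨u, v, huv⟩ := hc
  intro h0
  have h1 := congrArg (Polynomial.eval t) huv
  rw [eval_add, eval_mul, eval_mul, h0, ht, mul_zero, mul_zero, add_zero, eval_one] at h1
  exact zero_ne_one h1

theorem eval_root {L : Type} [Field L] {f : L[X]} {θ : Fin 3 → L}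
    (hf : f = ∏ r, (X - C (θ r))) (r : Fin 3) : f.eval (θ r) = 0 := by
  rw [hf, eval_prod]
  exact Finset.prod_eq_zero (Finset.mem_univ r) (by simp)

end H33L

/-- **ARC.** -/
theorem arc (hL : LGRStmt) : ARCStmt := by
  intro f h M hf hd hs hc hM hroot
  obtain ⟨θ, hθ, hinj⟩ := roots3 f hf hd hs
  obtain ⟨E, -, w, hw, -, h0, h1⟩ := hL ℂ f h θ hθ hinj
  have hev : ∀ r, h.eval (θ r) ≠ 0 := fun r => eval_ne hc (eval_root hθ r)
  have hsq : ∀ r, ∃ s : ℂ, s ^ 2 = (w r * h.eval (θ r))⁻¹ := fun r =>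
    IsAlgClosed.exists_pow_nat_eq _ (by norm_num)
  choose s hs2 using hsq
  have hG : (E * Matrix.diagonal s)ᵀ * gr 0 3 f h * (E * Matrix.diagonal s) = 1 := by
    rw [diag_sand E _ s _ h0, ← Matrix.diagonal_one]
    congr 1
    funext r
    rw [hs2, inv_mul_cancel₀ (mul_ne_zero (hw r) (hev r))]
  have hS : (E * Matrix.diagonal s)ᵀ * gr 1 3 f h * (E * Matrix.diagonal s) =
      Matrix.diagonal θ := by
    rw [diag_sand E _ s _ h1]
    congr 1
    funext r
    rw [hs2, mul_left_comm, inv_mul_cancel₀ (mul_ne_zero (hw r) (hev r)), mul_one]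
  refine ⟨E * Matrix.diagonal s, fun h2 => ?_, hG, fun i j => ?_⟩
  · have h3 := congrArg Matrix.det hG
    rw [Matrix.det_mul, h2, mul_zero, Matrix.det_one] at h3
    exact zero_ne_one h3
  · rw [hS]
    by_cases hij : i = j
    · subst hij
      rw [Matrix.diagonal_apply_eq]
      exact hroot _ (eval_root hθ i)
    · rw [Matrix.diagonal_apply_ne _ hij, norm_zero]
      exact hM

end Pool.NF
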